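import Pool.Agent.W170.Z3.Z

/-!
# Irrationality exponent of `ζ(3)`

Hankel determinants of size `2n` of the linear forms `-∑_{t ≥ -4n} (R Q)'(t)` in `1, ζ(3)`,
`R(t) = ((7n)!)² / ((4n)! (6n)!) · ∏_{j ≤ 4n} (t+j) · ∏_{j ≤ 6n} (t+j) / ∏_{5n < k ≤ 12n} (t+k)²`, with `ζ(3)`
replaced by a rational number `p/q`; non-vanishing for all `p/q` at the primes `n = 143 (mod 284)`.
-/

set_option autoImplicit false

namespace Pool.Agent.Results.MP_48b3e2_nt.ZetaThreeExponent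

/-- The irrationality exponent of `ζ(3) = ∑ 1/(n+1)^3` is at most `5.42`: there is `c > 0` with
`|ζ(3) - p/q| ≥ c / q^5.42` for all integers `p` and `q > 0`. -/
theorem result : ∃ c : ℝ, 0 < c ∧ ∀ (p : ℤ) (q : ℕ), 0 < q →
    c / (q : ℝ) ^ ((542 : ℝ) / 100) ≤ |(∑' n : ℕ, 1 / ((n : ℝ) + 1) ^ 3) - (p : ℝ) / q| :=
  Pool.Agent.W170.Z3.Z_main

end Pool.Agent.Results.MP_48b3e2_nt.ZetaThreeExponent
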